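import Pool.Agent.Helper43.EV.Goals

/-!
# Project EV, packet ORB: orbits of `NB`
-/

set_option autoImplicit false

namespace Pool.Agent.Helper26.EV.ORB

open Module Pool.Agent.Helper43.EV
open Pool.Agent.Helper3.QGr (prj finrank_ker_add finrank_comap)

theorem t : Pool.Agent.Helper43.EV.ORB := by
  intro F _ _ V _ _ _ ψ z hz NB hNB hex a b X hX
  classical
  have hfin : Finite (Submodule F V) := Pool.Agent.Helper3.QGr.instFiniteSub
  have : Finite (Fl F V a b) := inferInstance
  choose g hg using hex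
  have hgN : ∀ w, g w ∈ NB := fun w => (hNB _).2 ⟨w, hg w⟩
  set A' : Submodule F (LinearMap.ker ψ) := X.1.1.comap (LinearMap.ker ψ).subtype with hA'
  -- a vector of `A` with `ψ = 1`
  obtain ⟨x₀, hx₀, hψ₀⟩ : ∃ x ∈ X.1.1, ψ x = 1 := by
    obtain ⟨x, hx, hxk⟩ := SetLike.not_le_iff_exists.1 hX
    have hne : ψ x ≠ 0 := fun h => hxk h
    exact ⟨(ψ x)⁻¹ • x, X.1.1.smul_mem _ hx, by rw [map_smul, smul_eq_mul, inv_mul_cancel₀ hne]⟩
  -- the dimension of the quotient
  have hd1 : finrank F A' + 1 = finrank F X.1.1 := (finrank_comap ψ z hz X.1.1).2 hX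
  have hd2 := finrank_ker_add ψ z hz
  have hd3 := Submodule.finrank_quotient_add_finrank A'
  have hd4 : finrank F X.1.1 = a := X.2.2.1
  have hd : finrank F (LinearMap.ker ψ ⧸ A') = finrank F V - a := by omega
  have hcard : Nat.card (LinearMap.ker ψ ⧸ A') = Nat.card F ^ (finrank F V - a) := by
    rw [Module.natCard_eq_pow_finrank (K := F), hd]
  -- the injection
  let f : (LinearMap.ker ψ ⧸ A') → MulAction.orbit NB X := fun c =>
    ⟨(⟨g (Quotient.out c), hgN _⟩ : NB) • X, MulAction.mem_orbit _ _⟩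
  have hf : Function.Injective f := by
    intro c d hcd
    have h1 : (⟨g (Quotient.out c), hgN _⟩ : NB) • X = (⟨g (Quotient.out d), hgN _⟩ : NB) • X :=
      congrArg Subtype.val hcd
    have h2 : X.1.1.map (((g (Quotient.out c)) : V ≃ₗ[F] V) : V →ₗ[F] V) =
        X.1.1.map (((g (Quotient.out d)) : V ≃ₗ[F] V) : V →ₗ[F] V) :=
      congrArg (fun Y : Fl F V a b => Y.1.1) h1
    have h3 : ((g (Quotient.out c)) : V ≃ₗ[F] V) x₀ ∈
        X.1.1.map (((g (Quotient.out d)) : V ≃ₗ[F] V) : V →ₗ[F] V) := by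
      rw [← h2]
      exact Submodule.mem_map_of_mem hx₀
    obtain ⟨x, hx, hxe⟩ := Submodule.mem_map.1 h3
    have h4 : ((g (Quotient.out d)) : V ≃ₗ[F] V) x = ((g (Quotient.out c)) : V ≃ₗ[F] V) x₀ := hxe
    rw [hg, hg, hψ₀, one_smul] at h4
    have hk : ∀ w : LinearMap.ker ψ, ψ (w : V) = 0 := fun w => w.2
    have h5 : ψ x = 1 := by
      have := congrArg ψ h4
      rwa [map_add, map_add, map_smul, hk, hk, smul_zero, add_zero, add_zero, hψ₀] at this
    rw [h5, one_smul] at h4
    have h6 : Quotient.out c - Quotient.out d ∈ A' := by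
      have h7 : ((Quotient.out c : LinearMap.ker ψ) : V) - ((Quotient.out d : LinearMap.ker ψ) : V)
          = x - x₀ := by
        rw [sub_eq_sub_iff_add_eq_add, h4, add_comm]
      change ((Quotient.out c : LinearMap.ker ψ) : V) - ((Quotient.out d : LinearMap.ker ψ) : V) ∈
        X.1.1
      rw [h7]
      exact X.1.1.sub_mem hx hx₀
    have h8 := (Submodule.Quotient.eq A').2 h6
    have h9 : ∀ c : LinearMap.ker ψ ⧸ A', Submodule.Quotient.mk (Quotient.out c) = c :=
      fun c => Quotient.out_eq' c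
    rw [h9, h9] at h8
    exact h8
  have h10 := Nat.card_le_card_of_injective f hf
  rw [hcard] at h10
  exact h10

end Pool.Agent.Helper26.EV.ORB
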